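import Pool.Agent.Helper249.RC.Cover
import Pool.Agent.Helper249.RC.Support

/-!
MP_b8145f_gt, Q1: every compact subspace of `B_1(ℕ^ℕ)` belongs to the class `𝒮`.
-/

set_option autoImplicit false
open MeasureTheory Set Filter Topology
open Pool.Agent.Helper249.RC

namespace Pool.Agent.Results.MP_b8145f_gt.RosenthalMeasures

/-- Every compact subspace `K` of `B_1(ℕ^ℕ)` belongs to the class `𝒮`: every regular Borel
probability measure on `K` has metrizable-like support. -/
theorem result : ∀ K : Set ((ℕ → ℕ) → ℝ), IsCompact K → (∀ f ∈ K, BaireOne f) → ClassS K := by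
  intro K hK hB
  haveI : CompactSpace K := isCompact_iff_compactSpace.1 hK
  refine ⟨inferInstance, inferInstance, ?_⟩
  intro μ hμ hreg
  letI : MeasurableSpace K := borel K
  haveI : BorelSpace K := ⟨rfl⟩
  haveI : IsProbabilityMeasure μ := hμ
  haveI : μ.Regular := hreg
  have hpi := Real.pi_pos
  let F : (ℕ → ℕ) → K → ℝ := fun x f => 1 / 2 + Real.arctan (f.1 x) / Real.pi
  have hc : ∀ z, Continuous (F z) := by
    intro z
    have h1 : Continuous (fun f : K => f.1 z) := (continuous_apply z).comp continuous_subtype_val
    exact continuous_const.add ((Real.continuous_arctan.comp h1).div_const _)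
  have hb : ∀ z f, F z f ∈ Icc (0 : ℝ) 1 := by
    intro z f
    have h1 := Real.arctan_lt_pi_div_two (f.1 z)
    have h2 := Real.neg_pi_div_two_lt_arctan (f.1 z)
    have h3 : -(1 / 2) ≤ Real.arctan (f.1 z) / Real.pi := by
      rw [le_div_iff₀ hpi]; linarith
    have h4 : Real.arctan (f.1 z) / Real.pi ≤ 1 / 2 := by
      rw [div_le_iff₀ hpi]; linarith
    exact ⟨by simp only [F]; linarith, by simp only [F]; linarith⟩
  have hsep : ∀ f g, (∀ x, F x f = F x g) → f = g := by
    intro f g h
    apply Subtype.ext
    funext x
    have h1 := h x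
    simp only [F] at h1
    have h2 : Real.arctan (f.1 x) / Real.pi = Real.arctan (g.1 x) / Real.pi := by linarith
    rw [div_left_inj' hpi.ne'] at h2
    exact Real.arctan_injective h2
  have hF : Frag F := by
    refine frag_baireOne F fun f => ?_
    obtain ⟨g, hg1, hg2⟩ := hB f.1 f.2
    refine ⟨fun n x => 1 / 2 + Real.arctan (g n x) / Real.pi, fun n => ?_, fun x => ?_⟩
    · exact continuous_const.add ((Real.continuous_arctan.comp (hg1 n)).div_const _)
    · exact (((Real.continuous_arctan.tendsto _).comp (hg2 x)).div_const _).const_add _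
  exact support μ F hc hb hsep fun η hη => cover μ F hc hb hF η hη

end Pool.Agent.Results.MP_b8145f_gt.RosenthalMeasures
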